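import Mathlib

namespace Pool.Agent.Helper60.GreedyMIS

open SimpleGraph

variable {V : Type*} {T : SimpleGraph V}

/-- A request in the bidirected tree of `T`: a directed path with at least one arc. The arcs of the
bidirected tree are the darts of `T`. -/
structure Request (T : SimpleGraph V) where
  src : V
  tgt : V
  path : T.Walk src tgt
  isPath : path.IsPath
  notNil : ¬ path.Nil

/-- The emission arc: the first arc of the request. -/
def Request.emission (r : Request T) : T.Dart := r.path.firstDart r.notNil
/-- The reception arc: the last arc of the request. -/
def Request.reception (r : Request T) : T.Dart := r.path.lastDart r.notNil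

/-- `r` interferes on `r'`: the directed path from the source of `r` to the target of `r'` has as
first arc the emission arc of `r` and as last arc the reception arc of `r'`. -/
def InterferesOn (r r' : Request T) : Prop :=
  ∃ (p : T.Walk r.src r'.tgt) (hn : ¬ p.Nil), p.IsPath ∧
    p.firstDart hn = r.emission ∧ p.lastDart hn = r'.reception


/-- The interference graph of a family of requests (distinct indices may carry equal paths). -/
def interferenceGraph {ι : Type*} (R : ι → Request T) : SimpleGraph ι where
  Adj i j := i ≠ j ∧ (InterferesOn (R i) (R j) ∨ InterferesOn (R j) (R i))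
  symm := ⟨fun _ _ h => ⟨h.1.symm, h.2.symm⟩⟩
  loopless := ⟨fun _ h => h.1 rfl⟩

section defs
variable {ι : Type*} [DecidableEq ι]

/-- `S` is a maximum independent set of the subgraph of `G` induced by `U`. -/
def IsMaxIndepIn (G : SimpleGraph ι) (U S : Finset ι) : Prop :=
  S ⊆ U ∧ G.IsIndepSet (S : Set ι) ∧
    ∀ S' : Finset ι, S' ⊆ U → G.IsIndepSet (S' : Set ι) → S'.card ≤ S.card

/-- `L` lists the colour classes, in order, of a run of greedy maximum-independent-set colouring that
starts with `U` as the set of uncoloured vertices. -/
def IsGreedyRun (G : SimpleGraph ι) : Finset ι → List (Finset ι) → Prop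
  | U, [] => U = ∅
  | U, S :: L => U.Nonempty ∧ IsMaxIndepIn G U S ∧ IsGreedyRun G (U \ S) L


end defs

end Pool.Agent.Helper60.GreedyMIS
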