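import Pool.Agent.Helper60.GreedyMISDefs

set_option linter.unusedSectionVars false
set_option linter.unusedSimpArgs false

namespace Pool.Agent.Helper60.GreedyMIS

open SimpleGraph

variable {V : Type*} {T : SimpleGraph V}




def beyond (d : T.Dart) : Set V := {z | T.dist d.snd z < T.dist d.fst z}

lemma path_length (hT : T.IsTree) {u v : V} (p : T.Walk u v) (hp : p.IsPath) :
    p.length = T.dist u v := by
  obtain ⟨q, hq, hq'⟩ := hT.connected.exists_path_of_dist u v
  have := (hT.existsUnique_path u v).unique hp hq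
  rw [this, hq']

lemma dist_dart (hT : T.IsTree) (d : T.Dart) (z : V) :
    T.dist d.fst z = T.dist d.snd z + 1 ∨ T.dist d.snd z = T.dist d.fst z + 1 := by
  have := hT.dist_eq_dist_add_one_of_adj z d.adj
  rw [dist_comm (u := z), dist_comm (u := z) (v := d.snd)] at this
  exact this

lemma mem_beyond (hT : T.IsTree) (d : T.Dart) (z : V) :
    z ∈ beyond d ↔ T.dist d.fst z = T.dist d.snd z + 1 := by
  have := dist_dart hT d z
  simp only [beyond, Set.mem_ofPred_eq]
  omega

lemma not_mem_beyond (hT : T.IsTree) (d : T.Dart) (z : V) :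
    z ∉ beyond d ↔ T.dist d.snd z = T.dist d.fst z + 1 := by
  have := dist_dart hT d z
  simp only [beyond, Set.mem_ofPred_eq]
  omega

lemma mem_beyond_symm (hT : T.IsTree) (d : T.Dart) (z : V) :
    z ∈ beyond d.symm ↔ z ∉ beyond d := by
  rw [mem_beyond hT, not_mem_beyond hT]
  rfl

lemma fst_not_mem (d : T.Dart) : d.fst ∉ beyond d := by
  simp [beyond]

lemma snd_mem (hT : T.IsTree) (d : T.Dart) : d.snd ∈ beyond d := by
  rw [mem_beyond hT]
  simp [dist_eq_one_iff_adj.mpr d.adj]

/-- gate property -/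
lemma gate (hT : T.IsTree) (d : T.Dart) {z w : V} (hz : z ∉ beyond d) (hw : w ∈ beyond d) :
    T.dist z w = T.dist z d.fst + 1 + T.dist d.snd w := by
  obtain ⟨p, hp, hpl⟩ := hT.connected.exists_path_of_dist z d.fst
  obtain ⟨q, hq, hql⟩ := hT.connected.exists_path_of_dist d.snd w
  have hps : ∀ v ∈ p.support, v ∉ beyond d := by
    intro v hv hvb
    classical
    have h1 : T.dist z v + T.dist v d.fst ≤ p.length := by
      have := (p.take_spec hv)
      have h2 : p.length = (p.takeUntil v hv).length + (p.dropUntil v hv).length := by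
        rw [← Walk.length_append, p.take_spec hv]
      rw [h2]
      exact add_le_add (dist_le _) (dist_le _)
    have h3 := (mem_beyond hT d v).1 hvb
    have h4 := (not_mem_beyond hT d z).1 hz
    have h5 := hT.connected.dist_triangle (u := d.snd) (v := v) (w := z)
    rw [dist_comm (u := v) (v := d.fst), dist_comm (u := z) (v := v)] at h1
    rw [dist_comm (u := z) (v := d.fst)] at hpl
    omega
  have hqs : ∀ v ∈ q.support, v ∈ beyond d := by
    intro v hv
    by_contra hvb
    classical
    have h1 : T.dist d.snd v + T.dist v w ≤ q.length := by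
      have h2 : q.length = (q.takeUntil v hv).length + (q.dropUntil v hv).length := by
        rw [← Walk.length_append, q.take_spec hv]
      rw [h2]
      exact add_le_add (dist_le _) (dist_le _)
    have h3 := (not_mem_beyond hT d v).1 hvb
    have h4 := (mem_beyond hT d w).1 hw
    have h5 := hT.connected.dist_triangle (u := d.fst) (v := v) (w := w)
    omega
  have hq2 : (Walk.cons d.adj q).IsPath := by
    rw [Walk.cons_isPath_iff]
    exact ⟨hq, fun h => fst_not_mem d (hqs _ h)⟩
  have key : (p.append (Walk.cons d.adj q)).IsPath := by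
    rw [Walk.isPath_def, Walk.support_append, List.nodup_append]
    refine ⟨hp.support_nodup, ?_, ?_⟩
    · simpa using hq.support_nodup
    · intro a ha b hb hab
      subst hab
      simp only [Walk.support_cons, List.tail_cons] at hb
      exact hps a ha (hqs a hb)
  have := path_length hT _ key
  rw [← this]
  simp [hpl, hql]
  ring

lemma dart_crossing (hT : T.IsTree) (d e : T.Dart) (h1 : e.fst ∉ beyond d) (h2 : e.snd ∈ beyond d) :
    e = d := by
  have := gate hT d h1 h2
  rw [dist_eq_one_iff_adj.mpr e.adj] at this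
  have h3 : T.dist e.fst d.fst = 0 := by omega
  have h4 : T.dist d.snd e.snd = 0 := by omega
  rw [hT.connected.dist_eq_zero_iff] at h3 h4
  exact Dart.ext _ _ (Prod.ext h3 h4.symm)

/-- if both ends of `e` are beyond `d`, the complement of `beyond d` lies on one side of `e` -/
lemma side (hT : T.IsTree) (d e : T.Dart) (h1 : e.fst ∈ beyond d) (h2 : e.snd ∈ beyond d) :
    (∀ z, z ∉ beyond d → z ∈ beyond e) ∨ (∀ z, z ∉ beyond d → z ∉ beyond e) := by
  have h : ∀ z, z ∉ beyond d → (z ∈ beyond e ↔ T.dist d.snd e.fst = T.dist d.snd e.snd + 1) := by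
    intro z hz
    rw [mem_beyond hT, dist_comm (u := e.fst), dist_comm (u := e.snd), gate hT d hz h1,
      gate hT d hz h2]
    omega
  by_cases h3 : T.dist d.snd e.fst = T.dist d.snd e.snd + 1
  · left; intro z hz; rw [h z hz]; exact h3
  · right; intro z hz; rw [h z hz]; exact h3

lemma cross_free (hT : T.IsTree) (d e : T.Dart) :
    beyond d ⊆ beyond e ∨ beyond e ⊆ beyond d ∨ Disjoint (beyond d) (beyond e) ∨
      beyond d ∪ beyond e = Set.univ := by
  by_cases h1 : e.fst ∈ beyond d <;> by_cases h2 : e.snd ∈ beyond d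
  · rcases side hT d e h1 h2 with h | h
    · right; right; right
      ext z; simp only [Set.mem_union, Set.mem_univ, iff_true]
      by_cases hz : z ∈ beyond d
      · exact Or.inl hz
      · exact Or.inr (h z hz)
    · right; left
      intro z hz
      by_contra hz'
      exact h z hz' hz
  · have : e.symm = d := dart_crossing hT d e.symm h2 h1
    right; right; left
    rw [Set.disjoint_left]
    intro z hz
    rw [← this, mem_beyond_symm hT] at hz
    exact hz
  · have : e = d := dart_crossing hT d e h1 h2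
    left; rw [this]
  · have h1' : e.fst ∈ beyond d.symm := (mem_beyond_symm hT d _).2 h1
    have h2' : e.snd ∈ beyond d.symm := (mem_beyond_symm hT d _).2 h2
    have hb : ∀ z, z ∉ beyond d.symm ↔ z ∈ beyond d := by
      intro z; rw [mem_beyond_symm hT]; exact not_not
    rcases side hT d.symm e h1' h2' with h | h
    · left; intro z hz; exact h z ((hb z).2 hz)
    · right; right; left
      rw [Set.disjoint_left]
      intro z hz; exact h z ((hb z).2 hz)

lemma firstDart_beyond (hT : T.IsTree) {u v : V} (p : T.Walk u v) (hp : p.IsPath) (hn : ¬ p.Nil) :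
    v ∈ beyond (p.firstDart hn) := by
  rw [mem_beyond hT]
  change T.dist u v = T.dist p.snd v + 1
  have h1 := path_length hT _ hp
  have h2 := path_length hT _ (hp.tail)
  have h3 := Walk.length_tail_add_one hn
  omega

lemma lastDart_beyond (hT : T.IsTree) {u v : V} (p : T.Walk u v) (hp : p.IsPath) (hn : ¬ p.Nil) :
    u ∉ beyond (p.lastDart hn) := by
  rw [not_mem_beyond hT]
  change T.dist v u = T.dist p.penultimate u + 1
  have h1 := path_length hT _ hp
  have h2 := path_length hT _ (hp.dropLast)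
  have h3 := Walk.length_dropLast_add_one hn
  rw [dist_comm (u := v), dist_comm (v := u)]
  omega

lemma firstDart_eq_of_beyond (hT : T.IsTree) {v : V} (d : T.Dart) (p : T.Walk d.fst v)
    (hp : p.IsPath) (hn : ¬ p.Nil) (h : v ∈ beyond d) : p.firstDart hn = d := by
  obtain ⟨q, hq, hql⟩ := hT.connected.exists_path_of_dist d.snd v
  have hq2 : (Walk.cons d.adj q).IsPath := by
    apply Walk.isPath_of_length_eq_dist
    rw [(mem_beyond hT d v).1 h]
    simp [hql]
  have := (hT.existsUnique_path _ _).unique hp hq2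
  subst this
  apply Dart.ext
  apply Prod.ext
  · rfl
  · exact Walk.snd_cons _ _

lemma not_nil_of_beyond {v : V} (d : T.Dart) (p : T.Walk d.fst v)
    (h : v ∈ beyond d) : ¬ p.Nil := by
  intro hn
  have := hn.eq
  subst this
  exact fst_not_mem d h


lemma interferes_iff (hT : T.IsTree) (r r' : Request T) :
    InterferesOn r r' ↔ r'.tgt ∈ beyond r.emission ∧ r.src ∉ beyond r'.reception := by
  constructor
  · rintro ⟨p, hn, hp, h1, h2⟩
    rw [← h1, ← h2]
    exact ⟨firstDart_beyond hT p hp hn, lastDart_beyond hT p hp hn⟩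
  · rintro ⟨h1, h2⟩
    obtain ⟨p, hp, -⟩ := hT.connected.exists_path_of_dist r.src r'.tgt
    have hn : ¬ p.Nil := not_nil_of_beyond r.emission p h1
    refine ⟨p, hn, hp, firstDart_eq_of_beyond hT r.emission p hp hn h1, ?_⟩
    have hn' : ¬ p.reverse.Nil := by
      intro h; exact hn (Walk.nil_reverse.1 h)
    have h3 : r.src ∈ beyond r'.reception.symm := (mem_beyond_symm hT _ _).2 h2
    have h4 := firstDart_eq_of_beyond hT r'.reception.symm p.reverse hp.reverse hn' h3
    have h5 : (p.lastDart hn).symm = r'.reception.symm := by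
      rw [← h4]
      apply Dart.ext
      apply Prod.ext
      · rfl
      · change p.penultimate = p.reverse.snd
        simp
    have h6 := congrArg Dart.symm h5
    simpa using h6

lemma interferes_self (r : Request T) : InterferesOn r r :=
  ⟨r.path, r.notNil, r.isPath, rfl, rfl⟩

lemma interferes_iff_subset (hT : T.IsTree) (r r' : Request T) :
    InterferesOn r r' ↔ beyond r'.reception ⊆ beyond r.emission := by
  rw [interferes_iff hT]
  have hs : r.src ∉ beyond r.emission := fst_not_mem r.emission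
  have ht : r'.tgt ∈ beyond r'.reception := snd_mem hT r'.reception
  constructor
  · rintro ⟨h1, h2⟩
    rcases cross_free hT r'.reception r.emission with h | h | h | h
    · exact h
    · have h3 : r'.reception.fst ∉ beyond r.emission := fun h4 =>
        fst_not_mem r'.reception (h h4)
      have h5 : r'.reception = r.emission := dart_crossing hT r.emission r'.reception h3 h1
      rw [h5]
    · exact absurd h1 (Set.disjoint_left.1 h ht)
    · have : r.src ∈ beyond r'.reception ∪ beyond r.emission := by rw [h]; trivial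
      rcases this with h3 | h3
      · exact absurd h3 h2
      · exact absurd h3 hs
  · intro h
    exact ⟨h ht, fun h3 => hs (h h3)⟩


section trip

def CF (X Y : Set V) : Prop :=
  X ⊆ Y ∨ Y ⊆ X ∨ Disjoint X Y ∨ X ∪ Y = Set.univ

/-- nonadjacent requests: `C x` and `A y` are disjoint or cover -/
lemma gl {A C A' C' : Set V} (h : C ⊆ A) (h' : C' ⊆ A')
    (n1 : ¬ C' ⊆ A) (n2 : ¬ C ⊆ A') (cf : CF C A') :
    (∀ v, v ∈ C → v ∉ A') ∨ (∀ v, v ∈ C ∨ v ∈ A') := by
  rcases cf with h1 | h1 | h1 | h1
  · exact absurd h1 n2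
  · exact absurd ((h'.trans h1).trans h) n1
  · left; exact fun v hv => Set.disjoint_left.1 h1 hv
  · right; intro v
    have : v ∈ C ∪ A' := by rw [h1]; trivial
    exact this

lemma L1 {A1 C1 A2 C2 A3 C3 : Set V} {ρ : V}
    (h1 : C1 ⊆ A1) (h2 : C2 ⊆ A2) (h3 : C3 ⊆ A3)
    (e1 : C1.Nonempty) (e2 : C2.Nonempty) (e3 : C3.Nonempty)
    (u1 : ∃ v, v ∉ A1) (u2 : ∃ v, v ∉ A2) (u3 : ∃ v, v ∉ A3)
    (n12 : ¬ C1 ⊆ A2) (n21 : ¬ C2 ⊆ A1) (n13 : ¬ C1 ⊆ A3) (n31 : ¬ C3 ⊆ A1)
    (n23 : ¬ C2 ⊆ A3) (n32 : ¬ C3 ⊆ A2)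
    (c12 : CF C1 A2) (c21 : CF C2 A1) (c13 : CF C1 A3) (c31 : CF C3 A1)
    (c23 : CF C2 A3) (c32 : CF C3 A2) (ca : CF A1 A2) (cc : CF C1 C3)
    (r1 : ρ ∈ A1) (r1' : ρ ∉ C1) (r2 : ρ ∈ A2) (r3 : ρ ∉ C3) : False := by
  obtain ⟨x1, hx1⟩ := e1
  obtain ⟨x2, hx2⟩ := e2
  obtain ⟨x3, hx3⟩ := e3
  obtain ⟨y1, hy1⟩ := u1
  obtain ⟨y2, hy2⟩ := u2
  obtain ⟨y3, hy3⟩ := u3
  have g12 := gl h1 h2 n21 n12 c12
  have g21 := gl h2 h1 n12 n21 c21
  have g13 := gl h1 h3 n31 n13 c13
  have g31 := gl h3 h1 n13 n31 c31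
  have g23 := gl h2 h3 n32 n23 c23
  have g32 := gl h3 h2 n23 n32 c32
  rcases g12 with g12 | g12
  · -- C1 ∩ A2 = ∅
    rcases g31 with g31 | g31
    · rcases g32 with g32 | g32
      · rcases ca with h | h | h | h
        · exact g12 x1 hx1 (h (h1 hx1))
        · exact n21 (h2.trans h)
        · exact Set.disjoint_left.1 h r1 r2
        · have : x3 ∈ A1 ∪ A2 := by rw [h]; trivial
          rcases this with h | h
          · exact g31 x3 hx3 h
          · exact g32 x3 hx3 h
      · rcases g32 x1 with h | h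
        · exact g31 x1 h (h1 hx1)
        · exact g12 x1 hx1 h
    · rcases g32 with g32 | g32
      · apply n21
        intro v hv
        rcases g31 v with h | h
        · exact absurd (h2 hv) (g32 v h)
        · exact h
      · apply n13
        intro v hv
        rcases g32 v with h | h
        · exact h3 h
        · exact absurd h (g12 v hv)
  · rcases g31 with g31 | g31
    · apply n32
      intro v hv
      rcases g12 v with h | h
      · exact absurd (h1 h) (g31 v hv)
      · exact h
    · rcases g32 with g32 | g32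
      · apply n31
        intro v hv
        rcases g12 v with h | h
        · exact h1 h
        · exact absurd h (g32 v hv)
      · rcases cc with h | h | h | h
        · exact n13 (h.trans h3)
        · exact n31 (h.trans h1)
        · rcases g12 y2 with k | k
          · rcases g32 y2 with k' | k'
            · exact Set.disjoint_left.1 h k k'
            · exact hy2 k'
          · exact hy2 k
        · have : ρ ∈ C1 ∪ C3 := by rw [h]; trivial
          rcases this with h | h
          · exact r1' h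
          · exact r3 h

lemma L2 {A1 C1 A2 C2 A3 C3 A4 C4 : Set V} {ρ : V}
    (h1 : C1 ⊆ A1) (h2 : C2 ⊆ A2) (h3 : C3 ⊆ A3) (h4 : C4 ⊆ A4)
    (u1 : ∃ v, v ∉ A1)
    (n12 : ¬ C1 ⊆ A2) (n21 : ¬ C2 ⊆ A1) (n13 : ¬ C1 ⊆ A3) (n31 : ¬ C3 ⊆ A1)
    (n14 : ¬ C1 ⊆ A4) (n41 : ¬ C4 ⊆ A1)
    (n32 : ¬ C3 ⊆ A2) (n42 : ¬ C4 ⊆ A2)
    (n34 : ¬ C3 ⊆ A4) (n43 : ¬ C4 ⊆ A3)
    (c31 : CF C3 A1) (c41 : CF C4 A1) (cc : CF C1 C2) (ca : CF A3 A4)
    (r1 : ρ ∈ C1) (r2 : ρ ∈ C2) (r3 : ρ ∉ A3) (r4 : ρ ∉ A4) : False := by
  have ha : ∀ v, v ∈ A3 → v ∉ A4 := by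
    rcases ca with h | h | h | h
    · exact absurd (h3.trans h) n34
    · exact absurd (h4.trans h) n43
    · exact fun v hv => Set.disjoint_left.1 h hv
    · have : ρ ∈ A3 ∪ A4 := by rw [h]; trivial
      rcases this with h | h
      · exact absurd h r3
      · exact absurd h r4
  have hc : ∀ v, v ∈ C1 ∨ v ∈ C2 := by
    rcases cc with h | h | h | h
    · exact absurd (h.trans h2) n12
    · exact absurd (h.trans h1) n21
    · exact absurd r2 (Set.disjoint_left.1 h r1)
    · intro v
      have : v ∈ C1 ∪ C2 := by rw [h]; trivial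
      exact this
  obtain ⟨y1, hy1⟩ := u1
  rcases gl h3 h1 n13 n31 c31 with g31 | g31
  · apply n32
    intro v hv
    rcases hc v with h | h
    · exact absurd (h1 h) (g31 v hv)
    · exact h2 h
  · rcases gl h4 h1 n14 n41 c41 with g41 | g41
    · apply n42
      intro v hv
      rcases hc v with h | h
      · exact absurd (h1 h) (g41 v hv)
      · exact h2 h
    · rcases g31 y1 with h | h
      · rcases g41 y1 with h' | h'
        · exact ha y1 (h3 h) (h4 h')
        · exact hy1 h'
      · exact hy1 h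

end trip

section Structure
variable {ι : Type*} [DecidableEq ι]

/-- Structure lemma: an independent set with at least three elements has at most one element not
down, or at most one element not up -/
lemma F1 (A C : ι → Set V) (ρ : V) (hCA : ∀ i, C i ⊆ A i) (hne : ∀ i, (C i).Nonempty)
    (hnu : ∀ i, ∃ v, v ∉ A i)
    (cfCA : ∀ i j, CF (C i) (A j)) (cfCC : ∀ i j, CF (C i) (C j)) (cfAA : ∀ i j, CF (A i) (A j))
    (S : Finset ι) (hS : ∀ i ∈ S, ∀ j ∈ S, i ≠ j → ¬ C i ⊆ A j) (h3 : 3 ≤ S.card) :
    (∀ i ∈ S, ∀ j ∈ S, ρ ∈ A i → ρ ∈ A j → i = j) ∨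
    (∀ i ∈ S, ∀ j ∈ S, ρ ∉ C i → ρ ∉ C j → i = j) := by
  -- key: no element of type W together with another non-D and another non-U
  have key1 : ∀ i ∈ S, ∀ j ∈ S, ∀ l ∈ S, i ≠ j → i ≠ l → j ≠ l → ρ ∈ A i → ρ ∉ C i → ρ ∈ A j →
      ρ ∉ C l → False := by
    intro i hi j hj l hl hij hil hjl r1 r1' r2 r3
    exact L1 (hCA i) (hCA j) (hCA l) (hne i) (hne j) (hne l) (hnu i) (hnu j) (hnu l)
      (hS i hi j hj hij) (hS j hj i hi hij.symm) (hS i hi l hl hil) (hS l hl i hi hil.symm)
      (hS j hj l hl hjl) (hS l hl j hj hjl.symm) (cfCA _ _) (cfCA _ _) (cfCA _ _) (cfCA _ _)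
      (cfCA _ _) (cfCA _ _) (cfAA _ _) (cfCC _ _) r1 r1' r2 r3
  by_contra hcon
  push Not at hcon
  obtain ⟨⟨i, hi, j, hj, ri, rj, hij⟩, ⟨k, hk, l, hl, rk, rl, hkl⟩⟩ := hcon
  -- no W at all among i, j
  have third : ∀ a ∈ S, ∀ b ∈ S, ∃ c ∈ S, c ≠ a ∧ c ≠ b := by
    intro a ha b hb
    have : 0 < ((S.erase a).erase b).card := by
      have h1 := Finset.card_erase_add_one ha
      have h2 := Finset.pred_card_le_card_erase (s := S.erase a) (a := b)
      omega
    obtain ⟨c, hc⟩ := Finset.card_pos.1 this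
    rw [Finset.mem_erase, Finset.mem_erase] at hc
    exact ⟨c, hc.2.2, hc.2.1, hc.1⟩
  -- a W element i with another non-D j gives contradiction (given k ≠ l non-U)
  have wcase : ∀ i ∈ S, ∀ j ∈ S, i ≠ j → ρ ∈ A i → ρ ∉ C i → ρ ∈ A j → False := by
    intro i hi j hj hij r1 r1' r2
    by_cases hki : k ≠ i ∧ k ≠ j
    · exact key1 i hi j hj k hk hij hki.1.symm hki.2.symm r1 r1' r2 rk
    by_cases hli : l ≠ i ∧ l ≠ j
    · exact key1 i hi j hj l hl hij hli.1.symm hli.2.symm r1 r1' r2 rl
    -- then {k,l} = {i,j}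
    have hjU : ρ ∉ C j := by
      have : k = j ∨ l = j := by
        by_contra hh
        push Not at hh
        have h1 : k = i := by
          by_contra hk'
          exact hki ⟨hk', hh.1⟩
        have h2 : l = i := by
          by_contra hl'
          exact hli ⟨hl', hh.2⟩
        exact hkl (h1.trans h2.symm)
      rcases this with h | h
      · rw [← h]; exact rk
      · rw [← h]; exact rl
    obtain ⟨m, hm, hmi, hmj⟩ := third i hi j hj
    by_cases hmA : ρ ∈ A m
    · -- i, m, j
      exact key1 i hi m hm j hj hmi.symm hij hmj r1 r1' hmA hjU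
    · exact key1 i hi j hj m hm hij hmi.symm hmj.symm r1 r1' r2 (fun h => hmA (hCA m h))
  have wcase' : ∀ k ∈ S, ∀ l ∈ S, k ≠ l → ρ ∈ A k → ρ ∉ C k → ρ ∉ C l → False := by
    intro k hk l hl hkl r1 r1' r2
    by_cases h : ρ ∈ A l
    · exact wcase k hk l hl hkl r1 r1' h
    · -- find another non-D element
      by_cases hik : i = k
      · subst hik
        exact wcase i hi j hj hij r1 r1' rj
      · exact wcase k hk i hi (Ne.symm hik) r1 r1' ri
  by_cases hiC : ρ ∈ C i
  · by_cases hjC : ρ ∈ C j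
    · by_cases hkA : ρ ∈ A k
      · exact wcase' k hk l hl hkl hkA rk rl
      · by_cases hlA : ρ ∈ A l
        · exact wcase' l hl k hk hkl.symm hlA rl rk
        · have hik : i ≠ k := fun h => rk (h ▸ hiC)
          have hil : i ≠ l := fun h => rl (h ▸ hiC)
          have hjk : j ≠ k := fun h => rk (h ▸ hjC)
          have hjl : j ≠ l := fun h => rl (h ▸ hjC)
          exact L2 (hCA i) (hCA j) (hCA k) (hCA l) (hnu i)
            (hS i hi j hj hij) (hS j hj i hi hij.symm) (hS i hi k hk hik) (hS k hk i hi hik.symm)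
            (hS i hi l hl hil) (hS l hl i hi hil.symm) (hS k hk j hj hjk.symm)
            (hS l hl j hj hjl.symm) (hS k hk l hl hkl) (hS l hl k hk hkl.symm)
            (cfCA _ _) (cfCA _ _) (cfCC _ _) (cfAA _ _) hiC hjC hkA hlA
    · exact wcase j hj i hi hij.symm rj hjC ri
  · exact wcase i hi j hj hij ri hiC rj

end Structure


section counting
variable {ι : Type*} [DecidableEq ι]


/-- adjacency inside `D` is nestedness of `F`, non-nested members are disjoint -/
structure Lam (G : SimpleGraph ι) (D : Finset ι) (F : ι → Set V) : Prop where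
  ne : ∀ i ∈ D, (F i).Nonempty
  adj : ∀ i ∈ D, ∀ j ∈ D, i ≠ j → (G.Adj i j ↔ (F i ⊆ F j ∨ F j ⊆ F i))
  lam : ∀ i ∈ D, ∀ j ∈ D, ∀ v, v ∈ F i → v ∈ F j → (F i ⊆ F j ∨ F j ⊆ F i)

variable {G : SimpleGraph ι} {D : Finset ι} {F : ι → Set V}

lemma exists_min (hL : Lam G D F) (Q : Finset ι) (hQD : Q ⊆ D) (hQ : G.IsClique (Q : Set ι))
    (hne : Q.Nonempty) : ∃ l ∈ Q, ∀ q ∈ Q, F l ⊆ F q := by
  obtain ⟨l, hl, hmin⟩ := Q.exists_minimalFor F hne
  refine ⟨l, hl, fun q hq => ?_⟩
  by_cases h : l = q
  · rw [h]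
  · rcases (hL.adj l (hQD hl) q (hQD hq) h).1 (hQ hl hq h) with h1 | h1
    · exact h1
    · exact hmin hq h1

/-- One step: the pair of cliques grows. -/
lemma step (hL : Lam G D F) (U S : Finset ι) (hS : IsMaxIndepIn G U S)
    (hSD : S.card ≤ (S ∩ D).card + 1) (x y : ι) (Qx Qy : Finset ι)
    (hx : x ∈ Qx) (hy : y ∈ Qy) (hQx : Qx ⊆ (U \ S) ∩ D) (hQy : Qy ⊆ (U \ S) ∩ D)
    (cx : G.IsClique (Qx : Set ι)) (cy : G.IsClique (Qy : Set ι))
    (hxy : x ≠ y) (hadj : ¬ G.Adj x y) :
    ∃ Qx' Qy' : Finset ι, x ∈ Qx' ∧ y ∈ Qy' ∧ Qx' ⊆ U ∩ D ∧ Qy' ⊆ U ∩ D ∧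
      G.IsClique (Qx' : Set ι) ∧ G.IsClique (Qy' : Set ι) ∧
      Qx.card + Qy.card + 1 ≤ Qx'.card + Qy'.card := by
  have sub : ∀ Q : Finset ι, Q ⊆ (U \ S) ∩ D → Q ⊆ U ∩ D := by
    intro Q hQ v hv
    have := hQ hv
    simp only [Finset.mem_inter, Finset.mem_sdiff] at this ⊢
    exact ⟨this.1.1, this.2⟩
  by_cases ex : ∃ s ∈ U ∩ D, s ∉ Qx ∧ ∀ q ∈ Qx, G.Adj s q
  · obtain ⟨s, hs, hsQ, hsa⟩ := ex
    refine ⟨insert s Qx, Qy, Finset.mem_insert_of_mem hx, hy, ?_, sub _ hQy, ?_, cy, ?_⟩
    · exact Finset.insert_subset hs (sub _ hQx)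
    · rw [Finset.coe_insert]
      exact cx.insert (fun b hb _ => hsa b hb)
    · rw [Finset.card_insert_of_notMem hsQ]; omega
  by_cases ey : ∃ s ∈ U ∩ D, s ∉ Qy ∧ ∀ q ∈ Qy, G.Adj s q
  · obtain ⟨s, hs, hsQ, hsa⟩ := ey
    refine ⟨Qx, insert s Qy, hx, Finset.mem_insert_of_mem hy, sub _ hQx, ?_, cx, ?_, ?_⟩
    · exact Finset.insert_subset hs (sub _ hQy)
    · rw [Finset.coe_insert]
      exact cy.insert (fun b hb _ => hsa b hb)
    · rw [Finset.card_insert_of_notMem hsQ]; omega
  exfalso
  have hDx : Qx ⊆ D := fun v hv => (Finset.mem_inter.1 (hQx hv)).2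
  have hDy : Qy ⊆ D := fun v hv => (Finset.mem_inter.1 (hQy hv)).2
  obtain ⟨lx, hlx, hlxm⟩ := exists_min hL Qx hDx cx ⟨x, hx⟩
  obtain ⟨ly, hly, hlym⟩ := exists_min hL Qy hDy cy ⟨y, hy⟩
  -- neighbours of a minimum stay inside the maximal clique
  have simp_aux : ∀ Q : Finset ι, Q ⊆ D → G.IsClique (Q : Set ι) →
      (¬ ∃ s ∈ U ∩ D, s ∉ Q ∧ ∀ q ∈ Q, G.Adj s q) → ∀ l ∈ Q, (∀ q ∈ Q, F l ⊆ F q) →
      ∀ n ∈ U ∩ D, G.Adj l n → n ∈ Q := by
    intro Q hQD hQ hmax l hl hlm n hn hadj
    by_contra hnQ
    apply hmax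
    refine ⟨n, hn, hnQ, fun q hq => ?_⟩
    have hnD : n ∈ D := (Finset.mem_inter.1 hn).2
    have hnq : n ≠ q := fun h => hnQ (h ▸ hq)
    rw [hL.adj n hnD q (hQD hq) hnq]
    rcases (hL.adj l (hQD hl) n hnD hadj.ne).1 hadj with h1 | h1
    · obtain ⟨v, hv⟩ := hL.ne l (hQD hl)
      exact hL.lam n hnD q (hQD hq) v (h1 hv) (hlm q hq hv)
    · left; exact h1.trans (hlm q hq)
  have nx := simp_aux Qx hDx cx ex lx hlx hlxm
  have ny := simp_aux Qy hDy cy ey ly hly hlym
  have hlx1 := hQx hlx
  have hly1 := hQy hly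
  simp only [Finset.mem_inter, Finset.mem_sdiff] at hlx1 hly1
  -- lx and ly are distinct and nonadjacent
  have hnest : ¬ (F lx ⊆ F ly ∨ F ly ⊆ F lx) := by
    intro h
    apply hadj
    rw [hL.adj x (hDx hx) y (hDy hy) hxy]
    rcases h with h | h
    · obtain ⟨v, hv⟩ := hL.ne lx (hDx hlx)
      exact hL.lam x (hDx hx) y (hDy hy) v (hlxm x hx hv) (hlym y hy (h hv))
    · obtain ⟨v, hv⟩ := hL.ne ly (hDy hly)
      exact hL.lam x (hDx hx) y (hDy hy) v (hlxm x hx (h hv)) (hlym y hy hv)
  have hll : lx ≠ ly := by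
    intro h; apply hnest; rw [h]; exact Or.inl (le_refl _)
  have hlla : ¬ G.Adj lx ly := by
    rw [hL.adj lx (hDx hlx) ly (hDy hly) hll]; exact hnest
  -- the larger independent set
  have hbig := hS.2.2 (insert lx (insert ly (S ∩ D))) ?_ ?_
  · rw [Finset.card_insert_of_notMem, Finset.card_insert_of_notMem] at hbig
    · omega
    · simp only [Finset.mem_inter, not_and]
      intro h; exact absurd h hly1.1.2
    · simp only [Finset.mem_insert, Finset.mem_inter, not_or, not_and]
      exact ⟨hll, fun h => absurd h hlx1.1.2⟩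
  · apply Finset.insert_subset hlx1.1.1
    apply Finset.insert_subset hly1.1.1
    exact Finset.inter_subset_left.trans hS.1
  · -- independence
    have hSi := hS.2.1
    have aux : ∀ s ∈ S ∩ D, ¬ G.Adj lx s ∧ ¬ G.Adj ly s := by
      intro s hs
      have hsU : s ∈ U ∩ D := by
        rw [Finset.mem_inter] at hs ⊢
        exact ⟨hS.1 hs.1, hs.2⟩
      constructor
      · intro h
        have := hQx (nx s hsU h)
        simp only [Finset.mem_inter, Finset.mem_sdiff] at this hs
        exact this.1.2 hs.1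
      · intro h
        have := hQy (ny s hsU h)
        simp only [Finset.mem_inter, Finset.mem_sdiff] at this hs
        exact this.1.2 hs.1
    intro a ha b hb hab
    simp only [Finset.coe_insert, Set.mem_insert_iff, Finset.mem_coe] at ha hb
    rcases ha with rfl | rfl | ha <;> rcases hb with rfl | rfl | hb
    · exact absurd rfl hab
    · exact hlla
    · exact (aux b hb).1
    · exact fun h => hlla h.symm
    · exact absurd rfl hab
    · exact (aux b hb).2
    · exact fun h => (aux a ha).1 h.symm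
    · exact fun h => (aux a ha).2 h.symm
    · exact hSi (Finset.mem_inter.1 ha).1 (Finset.mem_inter.1 hb).1 hab

/-- number of rounds with at least three vertices, at most one of them outside `D` -/
def cnt (D : Finset ι) (L : List (Finset ι)) : ℕ :=
  L.countP (fun S => decide (3 ≤ S.card ∧ S.card ≤ (S ∩ D).card + 1))

lemma cnt_exists (hL : Lam G D F) : ∀ (L : List (Finset ι)) (U : Finset ι), IsGreedyRun G U L →
    1 ≤ cnt D L → ∃ x y : ι, ∃ Qx Qy : Finset ι, x ≠ y ∧ ¬ G.Adj x y ∧ x ∈ Qx ∧ y ∈ Qy ∧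
      Qx ⊆ U ∩ D ∧ Qy ⊆ U ∩ D ∧ G.IsClique (Qx : Set ι) ∧ G.IsClique (Qy : Set ι) ∧
      cnt D L + 1 ≤ Qx.card + Qy.card := by
  intro L
  induction L with
  | nil => intro U _ h; simp [cnt] at h
  | cons S L ih =>
    intro U hrun hcnt
    obtain ⟨hU, hS, hrun'⟩ := hrun
    by_cases hDl : 3 ≤ S.card ∧ S.card ≤ (S ∩ D).card + 1
    · have hc : cnt D (S :: L) = cnt D L + 1 := by
        simp [cnt, List.countP_cons, hDl]
      by_cases h0 : 1 ≤ cnt D L
      · obtain ⟨x, y, Qx, Qy, hxy, ha, hx, hy, sx, sy, cx, cy, hcard⟩ := ih _ hrun' h0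
        obtain ⟨Qx', Qy', hx', hy', sx', sy', cx', cy', hc'⟩ :=
          step hL U S hS hDl.2 x y Qx Qy hx hy sx sy cx cy hxy ha
        exact ⟨x, y, Qx', Qy', hxy, ha, hx', hy', sx', sy', cx', cy', by omega⟩
      · have : 1 < (S ∩ D).card := by omega
        obtain ⟨x, hx, y, hy, hxy⟩ := Finset.one_lt_card.1 this
        refine ⟨x, y, {x}, {y}, hxy, ?_, by simp, by simp, ?_, ?_, by simp, by simp, ?_⟩
        · exact hS.2.1 (Finset.mem_inter.1 hx).1 (Finset.mem_inter.1 hy).1 hxy
        · rw [Finset.singleton_subset_iff, Finset.mem_inter]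
          exact ⟨hS.1 (Finset.mem_inter.1 hx).1, (Finset.mem_inter.1 hx).2⟩
        · rw [Finset.singleton_subset_iff, Finset.mem_inter]
          exact ⟨hS.1 (Finset.mem_inter.1 hy).1, (Finset.mem_inter.1 hy).2⟩
        · rw [hc]; simp; omega
    · have hc : cnt D (S :: L) = cnt D L := by
        simp [cnt, List.countP_cons, hDl]
      rw [hc] at hcnt ⊢
      obtain ⟨x, y, Qx, Qy, hxy, ha, hx, hy, sx, sy, cx, cy, hcard⟩ := ih _ hrun' hcnt
      have sub : (U \ S) ∩ D ⊆ U ∩ D :=
        Finset.inter_subset_inter_right Finset.sdiff_subset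
      exact ⟨x, y, Qx, Qy, hxy, ha, hx, hy, sx.trans sub, sy.trans sub, cx, cy, hcard⟩

lemma cnt_le (hL : Lam G D F) {k : ℕ} (hk : ∀ Q : Finset ι, G.IsClique (Q : Set ι) → Q.card ≤ k)
    (L : List (Finset ι)) (U : Finset ι) (hrun : IsGreedyRun G U L) : cnt D L + 1 ≤ 2 * k + 1 ∧
      (1 ≤ cnt D L → cnt D L + 1 ≤ 2 * k) := by
  by_cases h : 1 ≤ cnt D L
  · obtain ⟨x, y, Qx, Qy, hxy, ha, hx, hy, sx, sy, cx, cy, hcard⟩ := cnt_exists hL L U hrun h
    have h1 := hk Qx cx
    have h2 := hk Qy cy
    constructor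
    · omega
    · intro _; omega
  · constructor
    · omega
    · intro h'; exact absurd h' h

lemma run_len_le : ∀ (L : List (Finset ι)) (U : Finset ι), IsGreedyRun G U L →
    L.length ≤ U.card := by
  intro L
  induction L with
  | nil => intro U _; simp
  | cons S L ih =>
    intro U hrun
    obtain ⟨hU, hS, hrun'⟩ := hrun
    have h1 := ih _ hrun'
    have hSpos : 1 ≤ S.card := by
      obtain ⟨u, hu⟩ := hU
      have := hS.2.2 {u} (by simpa using hu) (by simp)
      simpa using this
    have h2 : (U \ S).card + S.card = U.card := Finset.card_sdiff_add_card_eq_card hS.1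
    simp only [List.length_cons]
    omega

lemma run_small {k : ℕ} (hk : ∀ Q : Finset ι, G.IsClique (Q : Set ι) → Q.card ≤ k) :
    ∀ (L : List (Finset ι)) (U : Finset ι), IsGreedyRun G U L →
    (∀ S' : Finset ι, S' ⊆ U → G.IsIndepSet (S' : Set ι) → S'.card ≤ 2) →
    2 * L.length ≤ U.card + k := by
  intro L
  induction L with
  | nil => intro U _ _; simp
  | cons S L ih =>
    intro U hrun h2
    have hrun0 := hrun
    obtain ⟨hU, hS, hrun'⟩ := hrun
    have hSpos : 1 ≤ S.card := by
      obtain ⟨u, hu⟩ := hU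
      have := hS.2.2 {u} (by simpa using hu) (by simp)
      simpa using this
    have hS2 : S.card ≤ 2 := h2 S hS.1 hS.2.1
    have hcs : (U \ S).card + S.card = U.card := Finset.card_sdiff_add_card_eq_card hS.1
    by_cases h1 : S.card = 2
    · have := ih _ hrun' (fun S' hS' hi => h2 S' (hS'.trans Finset.sdiff_subset) hi)
      simp only [List.length_cons]
      omega
    · have h1' : S.card = 1 := by omega
      -- U is a clique
      have hcl : G.IsClique (U : Set ι) := by
        intro a ha b hb hab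
        by_contra hna
        have hpair : G.IsIndepSet (({a, b} : Finset ι) : Set ι) := by
          intro c hc d hd hcd
          simp only [Finset.coe_insert, Finset.coe_singleton, Set.mem_insert_iff,
            Set.mem_singleton_iff] at hc hd
          rcases hc with rfl | rfl <;> rcases hd with rfl | rfl
          · exact absurd rfl hcd
          · exact hna
          · exact fun h => hna h.symm
          · exact absurd rfl hcd
        have := hS.2.2 {a, b} (by
          intro v hv
          simp only [Finset.mem_insert, Finset.mem_singleton] at hv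
          rcases hv with rfl | rfl
          · exact ha
          · exact hb) hpair
        rw [Finset.card_pair hab, h1'] at this
        omega
      have h3 := hk U hcl
      have h4 := run_len_le _ _ hrun0
      omega

lemma card_le_of_colorable {k : ℕ} (hcol : G.Colorable k) (U : Finset ι)
    (h2 : ∀ S' : Finset ι, S' ⊆ U → G.IsIndepSet (S' : Set ι) → S'.card ≤ 2) :
    U.card ≤ 2 * k := by
  obtain ⟨c⟩ := hcol
  have h := Finset.card_le_mul_card_image_of_maps_to (s := U) (t := (Finset.univ : Finset (Fin k)))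
    (f := c) (fun _ _ => Finset.mem_univ _) 2 ?_
  · simpa using h
  · intro a _
    apply h2 _ (Finset.filter_subset _ _)
    intro u hu v hv huv hadj
    simp only [Finset.coe_filter, Set.mem_ofPred_eq] at hu hv
    exact c.valid hadj (hu.2.trans hv.2.symm)

/-- the rounds of size at most two -/
lemma cnt_small {k : ℕ} (hk : ∀ Q : Finset ι, G.IsClique (Q : Set ι) → Q.card ≤ k)
    (hcol : G.Colorable k) :
    ∀ (L : List (Finset ι)) (U : Finset ι), IsGreedyRun G U L →
    2 * L.countP (fun S => decide (S.card ≤ 2)) ≤ 3 * k := by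
  intro L
  induction L with
  | nil => intro U _; simp
  | cons S L ih =>
    intro U hrun
    have hrun0 := hrun
    obtain ⟨hU, hS, hrun'⟩ := hrun
    by_cases h : S.card ≤ 2
    · have h2 : ∀ S' : Finset ι, S' ⊆ U → G.IsIndepSet (S' : Set ι) → S'.card ≤ 2 :=
        fun S' hS' hi => (hS.2.2 S' hS' hi).trans h
      have h3 := run_small hk _ _ hrun0 h2
      have h4 := card_le_of_colorable hcol U h2
      have h5 := List.countP_le_length (p := fun S : Finset ι => decide (S.card ≤ 2)) (l := S :: L)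
      omega
    · have := ih _ hrun'
      simp [List.countP_cons, h] at this ⊢
      exact this

lemma run_mem_indep : ∀ (L : List (Finset ι)) (U : Finset ι), IsGreedyRun G U L →
    ∀ S ∈ L, G.IsIndepSet (S : Set ι) := by
  intro L
  induction L with
  | nil => intro U _ S hS; simp at hS
  | cons S L ih =>
    intro U hrun S' hS'
    obtain ⟨hU, hS, hrun'⟩ := hrun
    rcases List.mem_cons.1 hS' with rfl | h
    · exact hS.2.1
    · exact ih _ hrun' S' h

lemma length_split (D D' : Finset ι) : ∀ (L : List (Finset ι)),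
    (∀ S ∈ L, 3 ≤ S.card → S.card ≤ (S ∩ D).card + 1 ∨ S.card ≤ (S ∩ D').card + 1) →
    L.length ≤ cnt D L + cnt D' L + L.countP (fun S => decide (S.card ≤ 2)) := by
  intro L
  induction L with
  | nil => intro _; simp
  | cons S L ih =>
    intro h
    have h1 := ih (fun S' hS' => h S' (List.mem_cons_of_mem _ hS'))
    have h2 := h S List.mem_cons_self
    simp only [cnt, List.countP_cons, List.length_cons, decide_eq_true_eq] at h1 ⊢
    by_cases h3 : 3 ≤ S.card
    · rcases h2 h3 with h4 | h4
      · rw [if_pos (⟨h3, h4⟩ : 3 ≤ S.card ∧ S.card ≤ (S ∩ D).card + 1)]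
        omega
      · rw [if_pos (⟨h3, h4⟩ : 3 ≤ S.card ∧ S.card ≤ (S ∩ D').card + 1)]
        omega
    · rw [if_pos (by omega : S.card ≤ 2)]
      omega


end counting

section final
variable {ι : Type*} [DecidableEq ι]

lemma cf_beyond (hT : T.IsTree) (d e : T.Dart) : CF (beyond d) (beyond e) := cross_free hT d e

lemma adj_iff (hT : T.IsTree) (R : ι → Request T) (i j : ι) : (interferenceGraph R).Adj i j ↔
    i ≠ j ∧ (beyond (R j).reception ⊆ beyond (R i).emission ∨
      beyond (R i).reception ⊆ beyond (R j).emission) := by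
  rw [← interferes_iff_subset hT, ← interferes_iff_subset hT]
  rfl

lemma main_nat (hT : T.IsTree) [Fintype ι] (R : ι → Request T) (L : List (Finset ι))
    (hrun : IsGreedyRun (interferenceGraph R) Finset.univ L) (k : ℕ)
    (hcol : (interferenceGraph R).Colorable k) : 2 * L.length ≤ 11 * k := by
  classical
  obtain ⟨ρ⟩ := hT.connected.nonempty
  set A : ι → Set V := fun i => beyond (R i).emission with hA
  set C : ι → Set V := fun i => beyond (R i).reception with hC
  have hCA : ∀ i, C i ⊆ A i := fun i =>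
    (interferes_iff_subset hT (R i) (R i)).1 (interferes_self (R i))
  have hneC : ∀ i, (C i).Nonempty := fun i => ⟨_, snd_mem hT (R i).reception⟩
  have hnu : ∀ i, ∃ v, v ∉ A i := fun i => ⟨_, fst_not_mem (R i).emission⟩
  have cfCA : ∀ i j, CF (C i) (A j) := fun i j => cf_beyond hT _ _
  have cfCC : ∀ i j, CF (C i) (C j) := fun i j => cf_beyond hT _ _
  have cfAA : ∀ i j, CF (A i) (A j) := fun i j => cf_beyond hT _ _
  have hadj : ∀ i j, (interferenceGraph R).Adj i j ↔ i ≠ j ∧ (C j ⊆ A i ∨ C i ⊆ A j) :=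
    adj_iff hT R
  have hk : ∀ Q : Finset ι, (interferenceGraph R).IsClique (Q : Set ι) → Q.card ≤ k :=
    fun Q hQ => hQ.card_le_of_colorable hcol
  let D : Finset ι := Finset.univ.filter (fun i => ρ ∉ A i)
  let D' : Finset ι := Finset.univ.filter (fun i => ρ ∈ C i)
  have hD : Lam (interferenceGraph R) D A := by
    refine ⟨fun i _ => (hneC i).mono (hCA i), ?_, ?_⟩
    · intro i hi j hj hij
      simp only [D, Finset.mem_filter, Finset.mem_univ, true_and] at hi hj
      rw [hadj]
      have aux : ∀ i j, ρ ∉ A i → ρ ∉ A j → C j ⊆ A i → (A i ⊆ A j ∨ A j ⊆ A i) := by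
        intro i j hi hj h
        rcases cfAA i j with h1 | h1 | h1 | h1
        · exact Or.inl h1
        · exact Or.inr h1
        · obtain ⟨v, hv⟩ := hneC j
          exact absurd (hCA j hv) (Set.disjoint_left.1 h1 (h hv))
        · have : ρ ∈ A i ∪ A j := by rw [h1]; trivial
          rcases this with h2 | h2
          · exact absurd h2 hi
          · exact absurd h2 hj
      constructor
      · rintro ⟨-, h | h⟩
        · exact aux i j hi hj h
        · exact (aux j i hj hi h).symm
      · rintro (h | h)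
        · exact ⟨hij, Or.inr ((hCA i).trans h)⟩
        · exact ⟨hij, Or.inl ((hCA j).trans h)⟩
    · intro i hi j hj v hvi hvj
      simp only [D, Finset.mem_filter, Finset.mem_univ, true_and] at hi hj
      rcases cfAA i j with h1 | h1 | h1 | h1
      · exact Or.inl h1
      · exact Or.inr h1
      · exact absurd hvj (Set.disjoint_left.1 h1 hvi)
      · have : ρ ∈ A i ∪ A j := by rw [h1]; trivial
        rcases this with h2 | h2
        · exact absurd h2 hi
        · exact absurd h2 hj
  have hD' : Lam (interferenceGraph R) D' (fun i => (C i)ᶜ) := by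
    have aux : ∀ i j, ρ ∈ C i → ρ ∈ C j → ∀ v, v ∉ C i → v ∉ C j →
        ((C i)ᶜ ⊆ (C j)ᶜ ∨ (C j)ᶜ ⊆ (C i)ᶜ) := by
      intro i j hi hj v hvi hvj
      rcases cfCC i j with h1 | h1 | h1 | h1
      · exact Or.inr (Set.compl_subset_compl.2 h1)
      · exact Or.inl (Set.compl_subset_compl.2 h1)
      · exact absurd hj (Set.disjoint_left.1 h1 hi)
      · have : v ∈ C i ∪ C j := by rw [h1]; trivial
        rcases this with h2 | h2
        · exact absurd h2 hvi
        · exact absurd h2 hvj
    refine ⟨?_, ?_, ?_⟩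
    · intro i _
      obtain ⟨v, hv⟩ := hnu i
      exact ⟨v, fun h => hv (hCA i h)⟩
    · intro i hi j hj hij
      simp only [D', Finset.mem_filter, Finset.mem_univ, true_and] at hi hj
      rw [hadj]
      constructor
      · rintro ⟨-, h | h⟩
        · obtain ⟨v, hv⟩ := hnu i
          exact aux i j hi hj v (fun h' => hv (hCA i h')) (fun h' => hv (h h'))
        · obtain ⟨v, hv⟩ := hnu j
          exact aux i j hi hj v (fun h' => hv (h h')) (fun h' => hv (hCA j h'))
      · rintro (h | h)
        · exact ⟨hij, Or.inl ((Set.compl_subset_compl.1 h).trans (hCA i))⟩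
        · exact ⟨hij, Or.inr ((Set.compl_subset_compl.1 h).trans (hCA j))⟩
    · intro i hi j hj v hvi hvj
      simp only [D', Finset.mem_filter, Finset.mem_univ, true_and] at hi hj
      exact aux i j hi hj v hvi hvj
  have hsplit := length_split D D' L (by
    intro S hS h3
    have hind := run_mem_indep L _ hrun S hS
    have hnon : ∀ i ∈ S, ∀ j ∈ S, i ≠ j → ¬ C i ⊆ A j := by
      intro i hi j hj hij h
      apply hind hi hj hij
      rw [hadj]
      exact ⟨hij, Or.inr h⟩
    rcases F1 A C ρ hCA hneC hnu cfCA cfCC cfAA S hnon h3 with h | h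
    · left
      have h1 : (S \ D).card ≤ 1 := by
        rw [Finset.card_le_one]
        intro a ha b hb
        simp only [D, Finset.mem_sdiff, Finset.mem_filter, Finset.mem_univ, true_and,
          not_not] at ha hb
        exact h a ha.1 b hb.1 ha.2 hb.2
      have h2 := Finset.card_sdiff_add_card_inter S D
      omega
    · right
      have h1 : (S \ D').card ≤ 1 := by
        rw [Finset.card_le_one]
        intro a ha b hb
        simp only [D', Finset.mem_sdiff, Finset.mem_filter, Finset.mem_univ, true_and] at ha hb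
        exact h a ha.1 b hb.1 ha.2 hb.2
      have h2 := Finset.card_sdiff_add_card_inter S D'
      omega)
  have h1 := (cnt_le hD hk L _ hrun).1
  have h2 := (cnt_le hD' hk L _ hrun).1
  have h3 := cnt_small hk hcol L _ hrun
  omega

end final


theorem main {V ι : Type*} [Fintype ι] [DecidableEq ι] (T : SimpleGraph V) (hT : T.IsTree)
    (R : ι → Request T) (L : List (Finset ι))
    (hrun : IsGreedyRun (interferenceGraph R) Finset.univ L) :
    2 * (L.length : ℕ∞) ≤ 11 * (interferenceGraph R).chromaticNumber := by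
  have hc := SimpleGraph.colorable_of_fintype (interferenceGraph R)
  obtain ⟨k, hk⟩ := ENat.ne_top_iff_exists.1
    (SimpleGraph.chromaticNumber_ne_top_iff_exists.2 ⟨_, hc⟩)
  have hcol : (interferenceGraph R).Colorable k :=
    SimpleGraph.chromaticNumber_le_iff_colorable.1 (by rw [← hk])
  have := main_nat hT R L hrun k hcol
  rw [← hk]
  exact_mod_cast this

end Pool.Agent.Helper60.GreedyMIS
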